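import Pool.Agent.W312.TP.Stm

/-!
Project TP (helper312), part BB: the ends of a forced path.
-/

set_option autoImplicit false

namespace Pool.Agent.W249.TP

open Pool.Agent.W312.TP

theorem proof_BB (h1 : Pool.Agent.W312.TP.PROJ) : Pool.Agent.W312.TP.BB := by
  intro t p gs V T c P a ht H i hi
  obtain ⟨L, hLdef⟩ : ∃ L, L = rr t - 1 := ⟨_, rfl⟩
  have hL : 1 ≤ L := by
    rw [hLdef]
    unfold rr
    omega
  rw [← hLdef]
  have hpr : ∀ x, ∃ k ≤ L, ∀ j ≤ L, (j ≤ k → T.dist x (P i j) = T.dist x (P i k) + (k - j)) ∧
      (k ≤ j → T.dist x (P i j) = T.dist x (P i k) + (j - k)) := by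
    refine h1 V T H.tree (P i) L (fun j hj => H.padj i hi j (hLdef ▸ hj)) fun j hj hne => ?_
    have h2 := (H.pinj i hi i hi j (by omega) (j + 2) (by omega) hne).2
    omega
  constructor
  · obtain ⟨k, hk, h⟩ := hpr (P i 0)
    have h2 := (h 0 (by omega)).1 (Nat.zero_le k)
    rw [SimpleGraph.dist_self] at h2
    have hk0 : k = 0 := by omega
    subst hk0
    have h3 := (h L le_rfl).2 (Nat.zero_le L)
    rw [SimpleGraph.dist_self] at h3
    omega
  · intro z hz
    obtain ⟨k, hk, h⟩ := hpr z
    rcases Nat.eq_zero_or_pos k with hk0 | hk0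
    · subst hk0
      left
      have h3 := (h L le_rfl).2 (Nat.zero_le L)
      omega
    · rcases Nat.lt_or_ge k L with hkL | hkL
      · exfalso
        have hne := hz k hk0 hkL
        obtain ⟨w, hw⟩ := H.tree.connected.exists_walk_length_eq_dist (P i k) z
        cases w with
        | nil => exact hne rfl
        | cons hadj w' =>
          rename_i q
          have h4 := SimpleGraph.dist_le w'
          rw [SimpleGraph.Walk.length_cons] at hw
          obtain ⟨j', hj', hq⟩ := H.pnbr i hi k hk0 (hLdef ▸ hkL) q hadj
          rw [← hLdef] at hj'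
          have h5 : T.dist z q < T.dist z (P i k) := by
            rw [SimpleGraph.dist_comm (u := z) (v := q), SimpleGraph.dist_comm (u := z) (v := P i k)]
            omega
          rw [hq] at h5
          rcases le_total j' k with h6 | h6
          · have h7 := (h j' hj').1 h6
            omega
          · have h7 := (h j' hj').2 h6
            omega
      · have hkk : k = L := le_antisymm hk hkL
        subst hkk
        right
        have h3 := (h 0 (Nat.zero_le _)).1 (Nat.zero_le _)
        omega

end Pool.Agent.W249.TP

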