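import Pool.Agent.W476.TP.Base

/-! TP-NST: ideals without relevant zeros contain all forms of large degree. -/

set_option autoImplicit false

namespace Pool.Agent.W476.TP

open MvPolynomial

namespace NST

variable {L : Type} [Field L] {r n : ℕ} {m : Fin r → ℕ}

/-- total degree in the variables `z` -/
def zd (e : Sig m ⊕ Fin (n + 1) →₀ ℕ) : ℕ := ∑ i, e (Sum.inr i)

lemma zd_add (e f : Sig m ⊕ Fin (n + 1) →₀ ℕ) : zd (e + f) = zd e + zd f := by
  simp [zd, Finset.sum_add_distrib]

lemma zd_inl (α : Sig m →₀ ℕ) : zd (n := n) (α.mapDomain Sum.inl) = 0 := by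
  unfold zd
  refine Finset.sum_eq_zero fun i _ => ?_
  exact Finsupp.mapDomain_of_notMem_range _ _ (by simp)

lemma zd_inr (i : Fin (n + 1)) (l : ℕ) :
    zd (m := m) (Finsupp.single (Sum.inr i) l) = l := by
  unfold zd
  rw [Finset.sum_eq_single i]
  · simp
  · intro j _ hj
    rw [Finsupp.single_apply, if_neg (by simpa using hj.symm)]
  · simp

lemma weight_app (D : Fin r → ℕ) (e : Sig m ⊕ Fin (n + 1) →₀ ℕ) (κ : Fin r) :
    (Finsupp.weight (wt2 m D n) e) κ = (∑ i, e (Sum.inl ⟨κ, i⟩)) + zd e * D κ := by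
  rw [Finsupp.weight_eq_sum, Finset.sum_apply, Fintype.sum_sum_type, Fintype.sum_sigma]
  congr 1
  · rw [Finset.sum_eq_single κ]
    · apply Finset.sum_congr rfl
      intro i _
      simp [wt2, wt]
    · intro b _ hb
      apply Finset.sum_eq_zero
      intro i _
      simp [wt2, wt, Pi.single_eq_of_ne hb.symm]
    · simp
  · simp [wt2, zd, Finset.sum_mul]

lemma weight_inl (D : Fin r → ℕ) (α : Sig m →₀ ℕ) :
    Finsupp.weight (wt2 m D n) (α.mapDomain Sum.inl) = Finsupp.weight (wt m) α := by
  rw [Finsupp.weight_apply, Finsupp.weight_apply, Finsupp.sum_mapDomain_index]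
  · rfl
  · intro b; exact zero_smul _ _
  · intro b u v; exact add_smul _ _ _

/-- exponent of the monomial `∏ κ, y (κ, ι κ)` -/
noncomputable def yexp (n : ℕ) (ι : ∀ κ : Fin r, Fin (m κ + 1)) : Sig m ⊕ Fin (n + 1) →₀ ℕ :=
  ∑ κ, Finsupp.single (Sum.inl ⟨κ, ι κ⟩) 1

lemma yexp_le {ι : ∀ κ : Fin r, Fin (m κ + 1)} {N : ℕ} {e : Sig m ⊕ Fin (n + 1) →₀ ℕ}
    (h : ∀ κ, N ≤ e (Sum.inl ⟨κ, ι κ⟩)) : N • yexp n ι ≤ e := by
  classical
  intro x
  rw [Finsupp.smul_apply, yexp, Finsupp.finsetSum_apply]
  rcases x with ⟨κ, i⟩ | j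
  · rw [Finset.sum_eq_single κ]
    · rw [Finsupp.single_apply]
      split_ifs with h1
      · have h2 : ι κ = i := by simpa using h1
        subst h2
        simpa using h κ
      · simp
    · intro b _ hb
      rw [Finsupp.single_apply, if_neg]
      intro h1
      apply hb
      have h2 := Sum.inl.inj h1
      exact congrArg Sigma.fst h2
    · simp
  · rw [Finset.sum_eq_zero]
    · simp
    · intro b _
      rw [Finsupp.single_apply, if_neg (by simp)]

lemma yexp_mem [IsAlgClosed L] (K : Ideal (MvPolynomial (Sig m ⊕ Fin (n + 1)) L))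
    (hK : ∀ (y : Sig m → L) (z : Fin (n + 1) → L), Rel y → ∃ P ∈ K, eval (Sum.elim y z) P ≠ 0)
    (ι : ∀ κ : Fin r, Fin (m κ + 1)) : ∃ N : ℕ, (monomial (yexp n ι) (1 : L)) ^ N ∈ K := by
  have h : monomial (yexp n ι) (1 : L) ∈ K.radical := by
    rw [← vanishingIdeal_zeroLocus_eq_radical (K := L), mem_vanishingIdeal_iff]
    intro x hx
    by_contra hne
    have h1 : aeval x (monomial (yexp n ι) (1 : L)) = ∏ κ, x (Sum.inl ⟨κ, ι κ⟩) := by
      rw [yexp, monomial_sum_one, map_prod]
      refine Finset.prod_congr rfl fun κ _ => ?_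
      exact aeval_X x _
    rw [h1] at hne
    have hrel : Rel (fun i => x (Sum.inl i)) := fun κ =>
      ⟨ι κ, fun h0 => hne (Finset.prod_eq_zero (Finset.mem_univ κ) h0)⟩
    obtain ⟨P, hP, hne'⟩ := hK (fun i => x (Sum.inl i)) (fun i => x (Sum.inr i)) hrel
    apply hne'
    have h2 : Sum.elim (fun i => x (Sum.inl i)) (fun i => x (Sum.inr i)) = x := by
      funext i
      rcases i with i | i <;> rfl
    rw [h2]
    have h3 := hx P hP
    rwa [aeval_eq_eval] at h3
  exact h

lemma gz_eq {D : Fin r → ℕ} {G : Polynomial (MvPolynomial (Sig m) L)} {t : ℕ}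
    (hG : MonicMH D G t) (i : Fin (n + 1)) :
    gz G i = X (Sum.inr i) ^ t +
      ∑ l ∈ Finset.range t, rename Sum.inl (G.coeff l) * X (Sum.inr i) ^ l := by
  unfold gz
  rw [Polynomial.eval₂_eq_sum_range, hG.2.2.1, Finset.sum_range_succ]
  refine (add_comm _ _).trans ?_
  congr 1
  have h1 : G.coeff t = 1 := by
    have := hG.2.1
    rw [Polynomial.Monic, Polynomial.leadingCoeff, hG.2.2.1] at this
    exact this
  rw [h1, map_one, one_mul]

end NST

open NST in
theorem t_NST : S_NST := by
  intro L _ _ r n m D hD G t hG K hK hz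
  classical
  choose Nf hNf using fun ι => yexp_mem K hz ι
  set N1 := Finset.univ.sup Nf with hN1def
  have hN1 : ∀ ι, (monomial (yexp n ι) (1 : L)) ^ N1 ∈ K := by
    intro ι
    have h1 : Nf ι ≤ N1 := Finset.le_sup (Finset.mem_univ ι)
    rw [← Nat.sub_add_cancel h1, pow_add]
    exact K.mul_mem_left _ (hNf ι)
  refine ⟨∑ κ, ((∑ i, t i) * D κ + (m κ + 1) * N1), fun δ hδ => ?_⟩
  have key : ∀ b : ℕ, ∀ e : Sig m ⊕ Fin (n + 1) →₀ ℕ, zd e = b →
      Finsupp.weight (wt2 m D n) e = δ → monomial e (1 : L) ∈ K := by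
    intro b
    induction b using Nat.strong_induction_on with
    | _ b ih =>
    intro e he hw
    by_cases hA : ∃ i, t i ≤ e (Sum.inr i)
    · obtain ⟨i, hi⟩ := hA
      have ht : 0 < t i := (hG i).1
      set e' := e - Finsupp.single (Sum.inr i) (t i) with he'def
      have he' : e = e' + Finsupp.single (Sum.inr i) (t i) :=
        (tsub_add_cancel_of_le (Finsupp.single_le_iff.2 hi)).symm
      have h1 : monomial e (1 : L) = monomial e' 1 * gz (G i) i -
          ∑ l ∈ Finset.range (t i),
            monomial e' 1 * (rename Sum.inl ((G i).coeff l) * X (Sum.inr i) ^ l) := by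
        rw [gz_eq (hG i), mul_add, Finset.mul_sum, add_sub_cancel_right, he', X_pow_eq_monomial,
          monomial_mul, one_mul]
      rw [h1]
      refine K.sub_mem (K.mul_mem_left _ (hK i)) (K.sum_mem fun l hl => ?_)
      rw [Finset.mem_range] at hl
      rw [← support_sum_monomial_coeff ((G i).coeff l), map_sum, Finset.sum_mul, Finset.mul_sum]
      refine K.sum_mem fun α hα => ?_
      rw [rename_monomial]
      have h2 : monomial e' (1 : L) * (monomial (α.mapDomain Sum.inl) (coeff α ((G i).coeff l)) *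
          X (Sum.inr i) ^ l) = C (coeff α ((G i).coeff l)) *
            monomial (e' + (α.mapDomain Sum.inl + Finsupp.single (Sum.inr i) l)) 1 := by
        rw [X_pow_eq_monomial, monomial_mul, monomial_mul, C_mul_monomial]
        congr 1
        ring
      rw [h2]
      refine K.mul_mem_left _ (ih _ ?_ _ rfl ?_)
      · rw [zd_add, zd_add, zd_inl, zd_inr, ← he]
        conv_rhs => rw [he', zd_add, zd_inr]
        omega
      · have h3 : Finsupp.weight (wt m) α = (t i - l) • D :=
          (hG i).2.2.2 l hl.le (mem_support_iff.1 hα)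
        have h4 : (t i - l) • D + l • D = t i • D := by
          rw [← add_smul, Nat.sub_add_cancel hl.le]
        rw [map_add, map_add, weight_inl, h3, Finsupp.weight_single]
        have h5 : wt2 m D n (Sum.inr i) = D := rfl
        rw [h5, h4, ← hw]
        conv_rhs => rw [he', map_add, Finsupp.weight_single, h5]
    · push Not at hA
      have hzd : zd e ≤ ∑ i, t i := Finset.sum_le_sum fun i _ => (hA i).le
      have hex : ∀ κ, ∃ i : Fin (m κ + 1), N1 ≤ e (Sum.inl ⟨κ, i⟩) := by
        intro κ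
        have h1 := weight_app D e κ
        rw [hw] at h1
        have h2 := hδ κ
        have h3 : (∑ i, t i) * D κ + (m κ + 1) * N1 ≤
            ∑ κ, ((∑ i, t i) * D κ + (m κ + 1) * N1) :=
          Finset.single_le_sum (f := fun κ => (∑ i, t i) * D κ + (m κ + 1) * N1)
            (fun _ _ => Nat.zero_le _) (Finset.mem_univ κ)
        have h4 : zd e * D κ ≤ (∑ i, t i) * D κ := Nat.mul_le_mul_right _ hzd
        have h5 : ∑ _i : Fin (m κ + 1), N1 ≤ ∑ i, e (Sum.inl ⟨κ, i⟩) := by
          rw [Finset.sum_const, Finset.card_univ, Fintype.card_fin, smul_eq_mul]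
          omega
        obtain ⟨i, _, hi⟩ := Finset.exists_le_of_sum_le (Finset.univ_nonempty) h5
        exact ⟨i, hi⟩
      choose ι hι using hex
      have hle : N1 • yexp n ι ≤ e := yexp_le hι
      have h6 : monomial e (1 : L) = monomial (e - N1 • yexp n ι) 1 *
          (monomial (yexp n ι) (1 : L)) ^ N1 := by
        rw [monomial_pow, one_pow, monomial_mul, one_mul, tsub_add_cancel_of_le hle]
      rw [h6]
      exact K.mul_mem_left _ (hN1 ι)
  intro Q hQ
  rw [← support_sum_monomial_coeff Q]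
  refine K.sum_mem fun e he => ?_
  have h1 : monomial e (coeff e Q) = C (coeff e Q) * monomial e 1 := by
    rw [C_mul_monomial, mul_one]
  rw [h1]
  exact K.mul_mem_left _ (key _ e rfl (hQ (mem_support_iff.1 he)))


end Pool.Agent.W476.TP
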